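import Pool.Agent.Lib.MP_2d136f_lc.BD.Main

namespace Pool.Agent.Results.MP_2d136f_lc.BipartiteBounded

open Pool.Agent.Lib.MP_2d136f_lc Pool.Agent.Shared.NP

/-- Deciding the winner of the Waiter-Client domination game is in PSPACE, and every language in
PSPACE has a polynomial-time many-one reduction to it all of whose values are bipartite graphs of
maximum degree at most 372. -/
theorem result : InPSPACE GraphInst.code WCDom ∧
    ∀ L : List Bool → Prop, InPSPACE id L →
      ∃ f : List Bool → GraphInst, PolyComputable id GraphInst.code f ∧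
        (∀ x, (f x).graph.IsBipartite ∧ ∀ v, ((f x).graph.neighborSet v).ncard ≤ 372) ∧
        ∀ x, L x ↔ WCDom (f x) :=
  ⟨inPSPACE, BD.hard_bip⟩

end Pool.Agent.Results.MP_2d136f_lc.BipartiteBounded
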